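import Pool.Agent.Helper75.OE.GoalsA

/-!
# Project OE: packet TRB
-/

namespace Pool.Agent.Helper20.OE

open Pool.Agent.Helper73.OE Pool.Agent.Helper73.OE.Sys Finset Pool.Agent.Helper75.OE
open scoped ENNReal

/-- The tripod move does not depend on edges far away. -/
theorem TR_inside (hB : A_BLOC) {H S L : Type} [Group H] (X : Sys H S L) (O O' : Edges H S)
    (M m : ℕ) (v : H) (p : S) (y k : L) (q : Cfg H S L)
    (hO : ∀ z r, X.dist v z ≤ m + M → (O' z r ↔ O z r)) (hav : X.Av O M q m v p y k) :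
    X.Av O' M q m v p y k ∧ X.TR O' m v p y k q = X.TR O m v p y k q ∧
      ∀ z, m + M < X.dist v z → X.TR O m v p y k q z = q z := by
  obtain ⟨h1, h2⟩ := hB H S L X O O' M m v p y k q q (fun _ _ => rfl) hO
  obtain ⟨h3, h4⟩ := h2 hav
  have hav' := h1.2 hav
  obtain ⟨-, h6⟩ := hB H S L X O' O' M m v p y k q q (fun _ _ => rfl) (fun _ _ _ => Iff.rfl)
  obtain ⟨-, h7⟩ := h6 hav'
  refine ⟨hav', ?_, h4⟩
  funext z
  by_cases hz : X.dist v z ≤ m + M
  · exact h3 z hz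
  · rw [h7 z (not_le.1 hz), h4 z (not_le.1 hz)]

/-- The key step. -/
theorem key (hT : A_TLOC) (hM : A_TRM) (hI : A_TRI) (hB : A_BLOC)
    {H S L : Type} [Group H] (X : Sys H S L)
    (O : Edges H S) (Λ : Finset H) (M m : ℕ) (v : H) (s : S) (y k : L)
    (hsym : X.Sym O) (hvs : ¬ O v s)
    (hΛ : ∀ z, X.dist v z ≤ m + M + 1 → z ∈ Λ) (q : Cfg H S L)
    (hy : y ≠ q v s) (hMA : X.MA O (Λ : Set H) q) (hav : X.Av O M q m v s y k) :
    (∀ z, z ∉ Λ → X.TR O m v s y k q z = q z) ∧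
      X.MA O (Λ : Set H) (X.TR O m v s y k q) ∧ X.TR O m v s y k q v s = y ∧
      X.Av O M (X.TR O m v s y k q) m v s (q v s) k ∧
      X.TR O m v s (q v s) k (X.TR O m v s y k q) = q := by
  set O' : Edges H S := X.inside (Λ : Set H) O with hO'
  have hsym' : X.Sym O' := by
    intro z r
    constructor
    · rintro ⟨h1, h2, h3⟩
      refine ⟨(hsym z r).1 h1, h3, ?_⟩
      rw [X.nb_bar]; exact h2
    · rintro ⟨h1, h2, h3⟩
      rw [X.nb_bar] at h3
      exact ⟨(hsym z r).2 h1, h3, h2⟩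
  have hOO : ∀ z r, X.dist v z ≤ m + M → (O' z r ↔ O z r) := by
    intro z r hz
    constructor
    · exact fun h => h.1
    · intro h
      refine ⟨h, ?_, ?_⟩
      · exact hΛ z (by omega)
      · exact hΛ _ (le_trans (X.dist_nb_le v z r) (by omega))
  have hMA' : X.MA O' (X.Sd v s) q := by
    intro z r _ _ h
    exact hMA z r h.2.1 h.2.2 h.1
  obtain ⟨hav', hTR, hfar⟩ := TR_inside hB X O O' M m v s y k q hOO hav
  obtain ⟨hm1, hm2⟩ := hM H S L X O' M m v s y k q hsym' hy hMA' hav'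
  obtain ⟨hi1, hi2⟩ := hI H S L X O' M m v s y k q hsym' hy hMA' hav'
  obtain ⟨-, ht⟩ := hT H S L X O' O' M m v s y k q q hy hMA' (fun _ _ => rfl)
    (fun _ _ _ _ => Iff.rfl)
  obtain ⟨ht1, -⟩ := ht hav'
  rw [hTR] at hm1 hm2 hi1 hi2 ht1
  set T := X.TR O m v s y k q with hTdef
  have hOO2 : ∀ z r, X.dist v z ≤ m + M → (O z r ↔ O' z r) := fun z r hz => (hOO z r hz).symm
  obtain ⟨hav2, hTR2, -⟩ := TR_inside hB X O' O M m v s (q v s) k T hOO2 hi1
  refine ⟨?_, ?_, hm1, hav2, ?_⟩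
  · intro z hz
    apply hfar
    by_contra hcon
    exact hz (hΛ z (by omega))
  · intro z r hz hzr hO
    have hO1 : O' z r := ⟨hO, hz, hzr⟩
    by_cases h1 : z ∈ X.Sd v s
    · by_cases h2 : X.nb z r ∈ X.Sd v s
      · exact hm2 z r h1 h2 hO1
      · exfalso
        obtain ⟨rfl, rfl⟩ := X.Sd_edge h1 h2
        exact hvs hO
    · by_cases h2 : X.nb z r ∈ X.Sd v s
      · exfalso
        have h3 : X.nb (X.nb z r) (X.bar r) ∉ X.Sd v s := by rw [X.nb_bar]; exact h1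
        obtain ⟨h4, h5⟩ := X.Sd_edge h2 h3
        have h6 := (hsym z r).1 hO
        rw [h4, h5] at h6
        exact hvs h6
      · have h3 := hMA z r hz hzr hO
        unfold Mt at h3 ⊢
        rw [ht1 z h1, ht1 _ h2]
        exact h3
  · rw [hTR2]; exact hi2

open Classical in
/-- Restriction of a configuration. -/
noncomputable def res {H S L : Type} (Λ : Finset H) (q : Cfg H S L) : Λ → (S ≃ L) :=
  fun z => q z.1

theorem res_glue {H S L : Type} [Group H] (X : Sys H S L) (Λ : Finset H) (f : Λ → (S ≃ L)) :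
    res Λ (X.glue Λ f) = f := by
  funext z
  unfold res glue
  rw [dif_pos z.2]

theorem glue_out {H S L : Type} [Group H] (X : Sys H S L) (Λ : Finset H) (f : Λ → (S ≃ L))
    {z : H} (hz : z ∉ Λ) : X.glue Λ f z = X.e0 := by
  unfold glue
  rw [dif_neg hz]

theorem glue_res {H S L : Type} [Group H] (X : Sys H S L) (Λ : Finset H) (q : Cfg H S L)
    (h : ∀ z, z ∉ Λ → q z = X.e0) : X.glue Λ (res Λ q) = q := by
  funext z
  unfold glue
  by_cases hz : z ∈ Λ
  · rw [dif_pos hz]; rfl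
  · rw [dif_neg hz, h z hz]

theorem trb (hT : A_TLOC) (hM : A_TRM) (hI : A_TRI) (hB : A_BLOC) : A_TRB := by
  classical
  intro H S L _ _ _ X P O Λ v s x y i F hsym hvs hxy hΛ
  have hi := i.1.2
  have hΛ' : ∀ z, X.dist v z ≤ (2 * (i.1 : ℕ) + 1) + P.M + 1 → z ∈ Λ := by
    intro z hz
    apply hΛ
    omega
  have hAS : ∀ (q : Cfg H S L) (a : L), i ∈ X.AS P O q v s a ↔
      X.Av O P.M q (2 * (i.1 : ℕ) + 1) v s a i.2 := by
    intro q a
    unfold AS
    simp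
  -- the key step for both directions
  have K : ∀ (a b : L), a ≠ b → ∀ f : Λ → (S ≃ L), X.MA O (Λ : Set H) (X.glue Λ f) →
      X.glue Λ f v s = a → i ∈ X.AS P O (X.glue Λ f) v s b →
      X.glue Λ (res Λ (X.TRi P O i v s b (X.glue Λ f))) = X.TRi P O i v s b (X.glue Λ f) ∧
      X.MA O (Λ : Set H) (X.TRi P O i v s b (X.glue Λ f)) ∧
      X.TRi P O i v s b (X.glue Λ f) v s = b ∧
      i ∈ X.AS P O (X.TRi P O i v s b (X.glue Λ f)) v s a ∧
      X.TRi P O i v s a (X.TRi P O i v s b (X.glue Λ f)) = X.glue Λ f := by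
    intro a b hab f h1 h2 h3
    rw [hAS] at h3
    obtain ⟨k1, k2, k3, k4, k5⟩ := key hT hM hI hB X O Λ P.M (2 * (i.1 : ℕ) + 1) v s b i.2
      hsym hvs hΛ' (X.glue Λ f) (by rw [h2]; exact hab.symm) h1 h3
    rw [h2] at k4 k5
    refine ⟨?_, k2, k3, ?_, k5⟩
    · apply glue_res
      intro z hz
      have := k1 z hz
      unfold TRi
      rw [this, glue_out X Λ f hz]
    · rw [hAS]; exact k4
  unfold starSum
  simp only [← ite_and]
  rw [← Finset.sum_filter, ← Finset.sum_filter]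
  refine Finset.sum_bij' (fun f _ => res Λ (X.TRi P O i v s y (X.glue Λ f)))
    (fun f _ => res Λ (X.TRi P O i v s x (X.glue Λ f))) ?_ ?_ ?_ ?_ ?_
  · intro f hf
    rw [Finset.mem_filter] at hf ⊢
    obtain ⟨-, h1, h2, h3⟩ := hf
    obtain ⟨k1, k2, k3, k4, k5⟩ := K x y hxy f h1 h2 h3
    refine ⟨Finset.mem_univ _, ?_⟩
    rw [k1]
    exact ⟨k2, k3, k4⟩
  · intro f hf
    rw [Finset.mem_filter] at hf ⊢
    obtain ⟨-, h1, h2, h3⟩ := hf
    obtain ⟨k1, k2, k3, k4, k5⟩ := K y x hxy.symm f h1 h2 h3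
    refine ⟨Finset.mem_univ _, ?_⟩
    rw [k1]
    exact ⟨k2, k3, k4⟩
  · intro f hf
    rw [Finset.mem_filter] at hf
    obtain ⟨-, h1, h2, h3⟩ := hf
    obtain ⟨k1, k2, k3, k4, k5⟩ := K x y hxy f h1 h2 h3
    rw [k1, k5, res_glue]
  · intro f hf
    rw [Finset.mem_filter] at hf
    obtain ⟨-, h1, h2, h3⟩ := hf
    obtain ⟨k1, k2, k3, k4, k5⟩ := K y x hxy.symm f h1 h2 h3
    rw [k1, k5, res_glue]
  · intro f hf
    rw [Finset.mem_filter] at hf
    obtain ⟨-, h1, h2, h3⟩ := hf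
    obtain ⟨k1, k2, k3, k4, k5⟩ := K x y hxy f h1 h2 h3
    rw [k1]

end Pool.Agent.Helper20.OE
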